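import Mathlib
import Pool.Agent.H.MP_6c430b_al.Defs2
import Pool.Agent.H.MP_6c430b_al.Red2

namespace Pool.Agent.Results.MP_a5725c_al.Rank

open Pool.Agent.H.MP_6c430b_al

theorem result : ¬ ∃ f : List (List ℕ × List ℕ) × List ℕ → Option ℕ, Computable f ∧
    ∀ (R : List (List ℕ × List ℕ)) (w : List ℕ),
      (∀ r ∈ R, r.1 ≠ [] ∧ r.2 ≠ [] ∧ (r.2, r.1) ∉ R) → w ≠ [] →
      ∀ n : ℕ, (f (R, w) = some n ↔ abRank (Diag R w) = n) := by
  rintro ⟨f, hf, h⟩
  obtain ⟨P, hP⟩ := Pool.Agent.Lib.helper21.While.exists_undec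
  obtain ⟨R, a, b, c, h1, h2, h3⟩ := reduction2 P
  apply hP
  have hr : Primrec (fun n : ℕ => List.replicate n c) := by
    refine (Primrec.list_map Primrec.list_range (g := fun _ _ => c)
      (Primrec.const c).to₂).of_eq (fun n => ?_)
    simp
  have hc : Computable (fun n : ℕ => f (R, a ++ List.replicate n c ++ b)) :=
    hf.comp ((Primrec.const R).pair (Primrec.list_append.comp
      (Primrec.list_append.comp (Primrec.const a) hr) (Primrec.const b))).to_comp
  have hp : Primrec (fun o : Option ℕ => !decide (o = some 0)) :=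
    Primrec.not.comp (Primrec.eq.comp Primrec.id (Primrec.const _)).decide
  refine ComputablePred.computable_iff.2 ⟨_, hp.to_comp.comp hc, ?_⟩
  ext n
  have := h R (a ++ List.replicate n c ++ b) h1 (by simp [h2]) 0
  rw [Nat.cast_zero] at this
  rw [← h3 n, Ne, ← this]
  simp

end Pool.Agent.Results.MP_a5725c_al.Rank
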